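import Pool.Agent.helper58.CRO.SpecC

/-!
Project cro: row CORE, the core theorem (bookkeeping).
-/

open scoped Manifold ContDiff Topology ENNReal
open MeasureTheory Set

noncomputable section

namespace Pool.Agent.CRO

theorem CORE_nonneg {n : ℕ} {r0 : ℝ} (𝒢 : NChart n r0) (ρ : ℝ) : 0 ≤ VV 𝒢 ρ :=
  setIntegral_nonneg measurableSet_ball (fun _ _ => inv_nonneg.2 (Real.sqrt_nonneg _))

theorem CORE_zero {n : ℕ} {r0 : ℝ} (𝒢 : NChart n r0) : VV 𝒢 0 = 0 := by
  unfold VV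
  rw [Metric.ball_zero]
  simp

theorem CORE_sqrt (x y z : ℝ) (hz : 0 < z) (h : x ≤ y / z ^ 2) :
    Real.sqrt x ≤ Real.sqrt y / z := by
  have h1 : Real.sqrt x ≤ Real.sqrt (y / z ^ 2) := Real.sqrt_le_sqrt h
  rw [Real.sqrt_div' _ (sq_nonneg z), Real.sqrt_sq hz.le] at h1
  exact h1

theorem CORE_int (a : ℝ) (w : ℝ → ℝ) (hc : Continuous w) (he : ∀ u, w (-u) = w u) :
    ∫ r in (-a)..a, w r = 2 * ∫ r in (0 : ℝ)..a, w r := by
  have h1 : ∫ r in (-a)..0, w r = ∫ r in (0 : ℝ)..a, w r := by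
    have h2 := intervalIntegral.integral_comp_neg (a := 0) (b := a) w
    rw [neg_zero] at h2
    rw [← h2]
    exact intervalIntegral.integral_congr (fun r _ => he r)
  rw [← intervalIntegral.integral_add_adjacent_intervals (hc.intervalIntegrable (-a) 0)
    (hc.intervalIntegrable 0 a), h1]
  ring

theorem CORE (h1 : FIN_stmt) (h2 : SWP_stmt) (h3 : RAT_stmt) (h4 : NUM_stmt) (h5 : GFL_stmt)
    (h6 : SPD_stmt) (h7 : VOL_stmt) (h8 : VVP_stmt) (h9 : APB_stmt) (h10 : TYP_stmt)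
    (h11 : LEV_stmt) : CORE_stmt := by
  intro ε hε hε1
  obtain ⟨d, N, hd, hd1, hN2, hFIN⟩ := h1 ε hε hε1
  obtain ⟨n0, hn0⟩ := h4 ε d N hε hε1 hd hd1
  refine ⟨n0, fun n hn r0 R 𝒢 hR hRr0 hexp => ?_⟩
  obtain ⟨hn1, hnum1, hnum2, hnum3⟩ := hn0 n hn
  obtain ⟨hkap, hom, -⟩ := h3 n
  obtain ⟨hV1, hV2, -⟩ := h8 n r0 𝒢 hn1 (by linarith)
  by_contra hcon
  push Not at hcon
  have hn0' : n ≠ 0 := by omega
  have hNpos : (0 : ℝ) < N := by
    have : 0 < N := by omega
    exact_mod_cast this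
  have hN2' : (2 : ℝ) ≤ N := by exact_mod_cast hN2
  have hπ := Real.pi_pos
  set om := sphereVol n with hom_def
  set h : ℝ := R / N with hh_def
  have hh : 0 < h := div_pos hR hNpos
  have hNh : (N : ℝ) * h = R := by
    rw [hh_def]
    field_simp
  have hjh : ∀ j : ℕ, j ≤ N → (j : ℝ) * h ≤ R := by
    intro j hj
    rw [← hNh]
    exact mul_le_mul_of_nonneg_right (by exact_mod_cast hj) hh.le
  have hRr : R < r0 := by linarith
  obtain ⟨lam, hlam⟩ : ∃ lam : ℕ → ℝ, ∀ j, lam j = (VV 𝒢 (j * h) / om) ^ ((n : ℝ)⁻¹) :=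
    ⟨_, fun j => rfl⟩
  have hq0 : ∀ j : ℕ, 0 ≤ VV 𝒢 (j * h) / om := fun j => div_nonneg (CORE_nonneg 𝒢 _) hom.le
  have hlpow : ∀ j, lam j ^ n = VV 𝒢 (j * h) / om := by
    intro j
    rw [hlam j]
    exact Real.rpow_inv_natCast_pow (hq0 j) hn0'
  have hl0' : ∀ j, 0 ≤ lam j := by
    intro j
    rw [hlam j]
    exact Real.rpow_nonneg (hq0 j) _
  have hVl : ∀ j : ℕ, VV 𝒢 (j * h) = om * lam j ^ n := by
    intro j
    rw [hlpow j]
    field_simp
  have hl0 : lam 0 = 0 := by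
    have h := hlpow 0
    rw [Nat.cast_zero, zero_mul, CORE_zero, zero_div] at h
    exact pow_eq_zero_iff hn0' |>.1 h
  have hmono : ∀ i j : ℕ, i ≤ j → j ≤ N → lam i ≤ lam j := by
    intro i j hij hj
    rw [hlam i, hlam j]
    apply Real.rpow_le_rpow (hq0 i) _ (inv_nonneg.2 (Nat.cast_nonneg n))
    apply div_le_div_of_nonneg_right _ hom.le
    apply hV2
    · exact mul_le_mul_of_nonneg_right (by exact_mod_cast hij) hh.le
    · exact lt_of_le_of_lt (hjh j hj) hRr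
  have hmono1 : ∀ j, j < N → lam j ≤ lam (j + 1) := fun j hj => hmono j (j + 1) (by omega) (by omega)
  have hlpos : ∀ j, 1 ≤ j → j ≤ N → 0 < lam j := by
    intro j hj1 hj
    rw [hlam j]
    apply Real.rpow_pos_of_pos
    apply div_pos _ hom
    apply hV1
    · exact mul_pos (by exact_mod_cast hj1) hh
    · exact lt_of_le_of_lt (hjh j hj) hRr
  have hh2 : h < 2 * R := by
    have := hjh 1 (by omega)
    rw [Nat.cast_one, one_mul] at this
    linarith
  have hlam1 : R / (4 * Real.pi * N) ≤ lam 1 := by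
    have hap := h9 n r0 (2 * R) 𝒢 hn1 hexp h hh (by linarith) hh2
    have e1 : R / (4 * Real.pi * N) = h / (4 * Real.pi) := by
      rw [hh_def]
      field_simp
    rw [e1]
    have hpos4 : 0 ≤ h / (4 * Real.pi) := by positivity
    refine (pow_le_pow_iff_left₀ hpos4 (hl0' 1) hn0').1 ?_
    rw [hlpow 1, Nat.cast_one, one_mul, le_div_iff₀ hom]
    calc (h / (4 * Real.pi)) ^ n * om ≤ (h / (4 * Real.pi)) ^ n * (2 ^ n * kap n) :=
          mul_le_mul_of_nonneg_left hnum3 (by positivity)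
      _ = kap n * (h / (2 * Real.pi)) ^ n := by
          rw [← mul_assoc, ← mul_pow, mul_comm]
          congr 2
          field_simp
          ring
      _ ≤ VV 𝒢 h := hap
  have hlamN : lam N < (1 - ε) * (2 * R / Real.pi) := by
    have hnn : 0 ≤ (1 - ε) * (2 * R / Real.pi) := by
      apply mul_nonneg (by linarith)
      positivity
    refine lt_of_pow_lt_pow_left₀ n hnn ?_
    rw [hlpow N, hNh, div_lt_iff₀ hom, mul_pow]
    calc VV 𝒢 R < (1 - ε) ^ n * om * (2 * R / Real.pi) ^ n := hcon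
      _ = (1 - ε) ^ n * (2 * R / Real.pi) ^ n * om := by ring
  obtain ⟨k, hk1, hkN, hW, hP⟩ := hFIN R lam hR hl0 hmono1 hlam1 hlamN
  have hlamk : R / (4 * Real.pi * N) ≤ lam k := hlam1.trans (hmono 1 k hk1 hkN.le)
  obtain ⟨a, w, ha, haR, hwc, hwp, hwe, hwi, hwj⟩ := h2 ε d R N k lam hε hε1 hd hd1 hR hk1 hkN
    hlamk (fun j _ hj => hmono1 j hj) hW hP
  set η : ℝ := ε * R / (100 * N) with hη_def
  have hη : 0 < η := by positivity
  have hsd : 0 < Real.sqrt d := Real.sqrt_pos.2 hd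
  have hkh : (k : ℝ) * h ≤ R - h := by
    have h1 : ((k : ℝ) + 1) * h ≤ R := by
      have := hjh (k + 1) hkN
      push_cast at this
      exact this
    linarith
  have hr1 : 0 < 2 * R - h := by linarith
  obtain ⟨H, Φ, hΦ⟩ := h5 n r0 (2 * R - h) 𝒢 hr1 (by linarith)
  have hb : 8 * (N : ℝ) * a * (1 - d) ^ n ≤ η * Real.sqrt d := by
    have hdn : 0 ≤ (1 - d) ^ n := pow_nonneg (by linarith) n
    have h1 : 8 * (N : ℝ) * a * (1 - d) ^ n ≤ 8 * N * R * (1 - d) ^ n := by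
      apply mul_le_mul_of_nonneg_right _ hdn
      apply mul_le_mul_of_nonneg_left _ (by positivity)
      linarith
    have h2 : 8 * (N : ℝ) * R * (1 - d) ^ n = (800 * (N : ℝ) ^ 2 * (1 - d) ^ n) * (R / (100 * N)) := by
      field_simp
      ring
    have h3 : (800 * (N : ℝ) ^ 2 * (1 - d) ^ n) * (R / (100 * N)) ≤
        (ε * Real.sqrt d) * (R / (100 * N)) :=
      mul_le_mul_of_nonneg_right hnum1 (by positivity)
    have h4 : (ε * Real.sqrt d) * (R / (100 * N)) = η * Real.sqrt d := by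
      rw [hη_def]
      ring
    linarith
  obtain ⟨A', hA', hAm, hAv, hAt⟩ := h10 n r0 (2 * R - h) 𝒢 H Φ hn1 hΦ N k h a (η * Real.sqrt d) d om
    lam hk1 hkN hh (by rw [hNh]; exact hRr) ha.le (by linarith) (mul_pos hη hsd) hd hd1 hom
    (fun j hj1 hj => ⟨hlpos j hj1 hj, hVl j⟩) (fun j hj1 hj => hmono k j hj1 hj) hb
  have hbη : η * Real.sqrt d / Real.sqrt d = η := by field_simp
  rw [hbη] at hAt
  choose! jj hjj1 hjj2 hjj3 hjj4 using hwj
  have hlev := h11 n r0 (2 * R - h) (2 * R) 𝒢 H Φ hn1 hΦ hexp A' a η (om * Real.sqrt (lam k) ^ n) w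
    (fun u => (jj u : ℝ) * h) hAm ha hη (by linarith)
    (by
      intro z hz
      refine ⟨(hA' hz).2, fun u hu => ?_⟩
      have hu1 : |u| ≤ a + η := by
        rw [abs_le]
        constructor
        · linarith [hu.1]
        · linarith [hu.2]
      have h1 := (h6 n r0 (2 * R - h) 𝒢 H Φ hΦ z (k * h) u (hA' hz) (by linarith)).1
      linarith)
    (by
      intro u hu
      have hu1 : |u| ≤ a := abs_le.2 ⟨hu.1, hu.2⟩
      refine ⟨lt_of_le_of_lt (hjh _ (hjj2 u hu1)) hRr, fun z hz => ?_⟩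
      exact hAt z hz (jj u) (hjj1 u hu1) (hjj2 u hu1) u hu1 (hjj3 u hu1))
    hwc hwp hwe
    (by
      intro u hu
      have hu1 : |u| ≤ a := abs_le.2 ⟨hu.1, hu.2⟩
      have hj1 := hjj1 u hu1
      have hlj : 0 < lam (jj u) := hlpos _ (by omega) (hjj2 u hu1)
      have hs := CORE_sqrt _ _ _ hlj (hjj4 u hu1)
      show Real.sqrt (w u) ^ n * VV 𝒢 ((jj u : ℝ) * h) ≤ _
      rw [hVl (jj u)]
      calc Real.sqrt (w u) ^ n * (om * lam (jj u) ^ n)
          ≤ (Real.sqrt (lam k) / lam (jj u)) ^ n * (om * lam (jj u) ^ n) := by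
            apply mul_le_mul_of_nonneg_right
            · exact pow_le_pow_left₀ (Real.sqrt_nonneg _) hs n
            · positivity
        _ = om * Real.sqrt (lam k) ^ n := by
            rw [div_pow]
            field_simp)
  have hlk : 0 < lam k := hlpos k hk1 hkN.le
  have hK : (om * Real.sqrt (lam k) ^ n) ^ 2 = om ^ 2 * lam k ^ n := by
    rw [mul_pow, ← pow_mul, mul_comm n 2, pow_mul, Real.sq_sqrt hlk.le]
  rw [hK, CORE_int a w hwc hwe] at hlev
  have hT : (1 + ε / 4) ^ n ≤ (2 * (∫ r in (0 : ℝ)..a, w r) / Real.pi) ^ n := by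
    apply pow_le_pow_left₀ (by positivity)
    rw [le_div_iff₀ hπ]
    linarith
  obtain ⟨-, hvol⟩ := h7 n r0 𝒢 (k * h) hn1 (lt_of_le_of_lt (hjh k hkN.le) hRr)
  rw [hvol, hVl k] at hAv
  have hfin : ENNReal.ofReal ((1 + ε / 4) ^ n) * ENNReal.ofReal (kap n * (om * lam k ^ n)) ≤
      ENNReal.ofReal (4 / 3) * ENNReal.ofReal (om ^ 2 * lam k ^ n) := by
    calc ENNReal.ofReal ((1 + ε / 4) ^ n) * ENNReal.ofReal (kap n * (om * lam k ^ n))
        ≤ ENNReal.ofReal ((2 * (∫ r in (0 : ℝ)..a, w r) / Real.pi) ^ n) *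
            (ENNReal.ofReal (4 / 3) * volume A') :=
          mul_le_mul' (ENNReal.ofReal_le_ofReal hT) hAv
      _ = ENNReal.ofReal (4 / 3) *
            (ENNReal.ofReal ((2 * (∫ r in (0 : ℝ)..a, w r) / Real.pi) ^ n) * volume A') := by
          ring
      _ ≤ _ := mul_le_mul_right hlev _
  rw [← ENNReal.ofReal_mul (by positivity), ← ENNReal.ofReal_mul (by norm_num)] at hfin
  rw [ENNReal.ofReal_le_ofReal_iff (by positivity)] at hfin
  have hc : 0 < om * lam k ^ n := by positivity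
  have hfin2 : ((1 + ε / 4) ^ n * kap n) * (om * lam k ^ n) ≤ (4 / 3 * om) * (om * lam k ^ n) := by
    nlinarith [hfin]
  have hfin3 := le_of_mul_le_mul_right hfin2 hc
  linarith

end Pool.Agent.CRO
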