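import Pool.Agent.helper58.CRO.SpecK
import Pool.Agent.helper79.CRO.Lib
import Pool.Agent.helper40.CRO.IME

/-!
# MP_5bf3c3_gt, row cro:KLV: the level inequality
-/

open scoped Manifold ContDiff Topology ENNReal
open MeasureTheory Set Bundle Filter

noncomputable section

namespace Pool.Agent.CRO

theorem KLV_TT {n : ℕ} (Φ : ℝ → PS n → PS n) (hc : Continuous fun q : ℝ × PS n => Φ q.1 q.2)
    (R : ℝ) : Measurable (TT Φ R (fun _ => 1)) := by
  have hopen := IME_open Φ hc R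
  have h2 : Measurable (({q : PS n × ℝ | Stay Φ R q.1 q.2}).indicator
      (fun _ : PS n × ℝ => ENNReal.ofReal 1)) :=
    Measurable.indicator measurable_const hopen.measurableSet
  have h3 := h2.lintegral_prod_right' (ν := (volume : Measure ℝ))
  have h4 : TT Φ R (fun _ => 1) = fun z => ∫⁻ u, ({q : PS n × ℝ | Stay Φ R q.1 q.2}).indicator
      (fun _ : PS n × ℝ => ENNReal.ofReal 1) (z, u) := by
    ext z
    have h5 : MeasurableSet {u : ℝ | Stay Φ R z u} := by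
      have h6 : IsOpen ((fun u : ℝ => (z, u)) ⁻¹' {q : PS n × ℝ | Stay Φ R q.1 q.2}) :=
        hopen.preimage (by fun_prop)
      exact h6.measurableSet
    unfold TT
    rw [← lintegral_indicator h5]
    refine lintegral_congr fun u => ?_
    by_cases hu : Stay Φ R z u
    · rw [indicator_of_mem (show u ∈ {u : ℝ | Stay Φ R z u} from hu),
        indicator_of_mem (show (z, u) ∈ {q : PS n × ℝ | Stay Φ R q.1 q.2} from hu)]
    · rw [indicator_of_notMem (show u ∉ {u : ℝ | Stay Φ R z u} from hu),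
        indicator_of_notMem (show (z, u) ∉ {q : PS n × ℝ | Stay Φ R q.1 q.2} from hu)]
  rw [h4]
  exact h3

theorem KLV_mmk {r0 : ℝ} (𝒢 : NChart 2 r0) (Φ : ℝ → PS 2 → PS 2) (e R : ℝ)
    (hT : Measurable (TT Φ R (fun _ => 1))) (k1 k2 : PS 2 → ℝ) (m1 : Measurable k1)
    (m2 : Measurable k2) (n1 : ∀ z, 0 ≤ k1 z) (n2 : ∀ z, 0 ≤ k2 z) (s t : ℝ) (hs : 0 ≤ s)
    (ht : 0 ≤ t) : mmk 𝒢 Φ e R (fun z => s * k1 z + t * k2 z) =
      ENNReal.ofReal s * mmk 𝒢 Φ e R k1 + ENNReal.ofReal t * mmk 𝒢 Φ e R k2 := by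
  unfold mmk
  have h1 : Measurable fun z => ENNReal.ofReal (k1 z) * (TT Φ R (fun _ => 1) z)⁻¹ :=
    m1.ennreal_ofReal.mul hT.inv
  have h2 : Measurable fun z => ENNReal.ofReal (k2 z) * (TT Φ R (fun _ => 1) z)⁻¹ :=
    m2.ennreal_ofReal.mul hT.inv
  rw [← lintegral_const_mul _ h1, ← lintegral_const_mul _ h2,
    ← lintegral_add_left (h1.const_mul _)]
  refine lintegral_congr fun z => ?_
  rw [ENNReal.ofReal_add (mul_nonneg hs (n1 z)) (mul_nonneg ht (n2 z)), ENNReal.ofReal_mul hs,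
    ENNReal.ofReal_mul ht, add_mul, mul_assoc, mul_assoc]

theorem KLV_Shl {r0 : ℝ} (𝒢 : NChart 2 r0) (e ρa ρb : ℝ) (hb : ρb < r0) :
    MeasurableSet (Shl 𝒢 e ρa ρb) := by
  have hU : IsOpen {z : PS 2 | ‖z.1‖ < r0} := isOpen_lt continuous_fst.norm continuous_const
  have h1 : IsOpen ({z : PS 2 | ‖z.1‖ < r0} ∩ sp 𝒢 ⁻¹' Ioo e 1) :=
    (IME_sp 𝒢).isOpen_inter_preimage hU isOpen_Ioo
  have h2 : Shl 𝒢 e ρa ρb = (fun z : PS 2 => ‖z.1‖) ⁻¹' Ico ρa ρb ∩
      ({z : PS 2 | ‖z.1‖ < r0} ∩ sp 𝒢 ⁻¹' Ioo e 1) := by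
    ext z
    constructor
    · rintro ⟨h3, h4, h5⟩
      exact ⟨h3, h3.2.trans hb, h4, h5⟩
    · rintro ⟨h3, _, h4, h5⟩
      exact ⟨h3, h4, h5⟩
  rw [h2]
  exact (continuous_fst.norm.measurable measurableSet_Ico).inter h1.measurableSet

theorem KLV_full (h5 : KFF_stmt) {r0 : ℝ} (𝒢 : NChart 2 r0) (e ρa ρb : ℝ) (he : 0 < e)
    (he1 : e < 1) (_h0 : 0 ≤ ρa) (hab : ρa ≤ ρb) (hb : ρb < r0) (hc : 0 ≤ c3 e) :
    ENNReal.ofReal (4 * c3 e * (VV 𝒢 ρb - VV 𝒢 ρa)) ≤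
      ∫⁻ z in Shl 𝒢 e ρa ρb, ENNReal.ofReal (|inner ℝ z.1 z.2| / ‖z.1‖) := by
  have hS := KLV_Shl 𝒢 e ρa ρb hb
  have hF : Measurable fun z : PS 2 => ENNReal.ofReal (|inner ℝ z.1 z.2| / ‖z.1‖) := by
    have h1 : Measurable fun z : PS 2 => (inner ℝ z.1 z.2 : ℝ) :=
      (continuous_fst.inner continuous_snd).measurable
    have h2 : Measurable fun z : PS 2 => ‖z.1‖ := continuous_fst.norm.measurable
    exact (h1.abs.div h2).ennreal_ofReal
  have hI : Measurable ((Shl 𝒢 e ρa ρb).indicator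
      fun z : PS 2 => ENNReal.ofReal (|inner ℝ z.1 z.2| / ‖z.1‖)) := hF.indicator hS
  rw [← lintegral_indicator hS, Measure.volume_eq_prod, lintegral_prod _ hI.aemeasurable]
  -- the shell in the plane
  obtain ⟨A, hA⟩ : ∃ A : Set (En 2), A = Metric.ball (0 : En 2) ρb \ Metric.ball 0 ρa := ⟨_, rfl⟩
  have hAm : MeasurableSet A := by
    rw [hA]
    exact measurableSet_ball.diff measurableSet_ball
  have hA' : MeasurableSet (A \ {0}) := hAm.diff (measurableSet_singleton 0)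
  have e1 : ∫⁻ x in A, ENNReal.ofReal (4 * c3 e * H79L_f 𝒢 x) =
      ∫⁻ x in A \ {0}, ENNReal.ofReal (4 * c3 e * H79L_f 𝒢 x) := by
    refine setLIntegral_congr ?_
    have h1 : (A \ {0} : Set (En 2)) =ᵐ[volume] A := sdiff_null_ae_eq_self (by simp)
    exact h1.symm
  have e2 : ENNReal.ofReal (4 * c3 e * (VV 𝒢 ρb - VV 𝒢 ρa)) ≤
      ∫⁻ x in A, ENNReal.ofReal (4 * c3 e * H79L_f 𝒢 x) := by
    have h1 := lintegral_inter_add_sdiff (μ := (volume : Measure (En 2)))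
      (fun x => ENNReal.ofReal (4 * c3 e * H79L_f 𝒢 x)) (Metric.ball (0 : En 2) ρb)
      (measurableSet_ball (x := (0 : En 2)) (ε := ρa))
    have h2 : Metric.ball (0 : En 2) ρb ∩ Metric.ball 0 ρa = Metric.ball 0 ρa :=
      inter_eq_right.2 (Metric.ball_subset_ball hab)
    rw [h2, H79L_VV_lint 𝒢 ρa (lt_of_le_of_lt hab hb) _ (by positivity),
      H79L_VV_lint 𝒢 ρb hb _ (by positivity), ← hA] at h1
    rw [mul_sub, sub_eq_add_neg]
    have h3 : 0 ≤ 4 * c3 e * VV 𝒢 ρa := by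
      refine mul_nonneg (by positivity) ?_
      unfold VV
      exact integral_nonneg fun x => H79L_f_nonneg 𝒢 x
    rw [← sub_eq_add_neg, ENNReal.ofReal_sub _ h3, tsub_le_iff_left, h1]
  refine e2.trans ?_
  rw [e1, ← lintegral_indicator hA']
  refine lintegral_mono fun x => ?_
  by_cases hx : x ∈ A \ {0}
  · rw [indicator_of_mem hx]
    have hx0 : x ≠ 0 := hx.2
    have hxA := hx.1
    rw [hA] at hxA
    have hxb : ‖x‖ < ρb := mem_ball_zero_iff.1 hxA.1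
    have hxa : ρa ≤ ‖x‖ := by
      have := hxA.2
      rw [mem_ball_zero_iff] at this
      exact not_lt.1 this
    have h6 := (h5 r0 𝒢 x e (norm_pos_iff.2 hx0) (hxb.trans hb) he he1).1
    have h7 : ENNReal.ofReal (4 * c3 e * H79L_f 𝒢 x) =
        ∫⁻ p in Fb 𝒢 e x, ENNReal.ofReal (|inner ℝ x p| / ‖x‖) := h6.symm
    rw [h7]
    have hFb : MeasurableSet (Fb 𝒢 e x) := by
      have h8 : Fb 𝒢 e x = (fun p => (x, p)) ⁻¹' (Shl 𝒢 e ρa ρb) := by
        ext p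
        exact ⟨fun h => ⟨⟨hxa, hxb⟩, h⟩, fun h => h.2⟩
      rw [h8]
      exact measurable_prodMk_left hS
    rw [← lintegral_indicator hFb]
    refine lintegral_mono fun p => ?_
    by_cases hp : p ∈ Fb 𝒢 e x
    · rw [indicator_of_mem hp, indicator_of_mem (show (x, p) ∈ Shl 𝒢 e ρa ρb from
        ⟨⟨hxa, hxb⟩, hp⟩)]
    · rw [indicator_of_notMem hp]
      exact zero_le
  · rw [indicator_of_notMem hx]
    exact zero_le

theorem KLV_hit_mono {Φ : ℝ → PS 2 → PS 2} {R ρ ρ' : ℝ} (h : ρ ≤ ρ') :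
    Hit Φ R ρ ⊆ Hit Φ R ρ' := by
  rintro z ⟨u, hu, hu'⟩
  exact ⟨u, hu, lt_of_lt_of_le hu' h⟩

theorem KLV_comb {r0 : ℝ} {𝒢 : NChart 2 r0} {Φ : ℝ → PS 2 → PS 2} {e R : ℝ} {k1 k2 : PS 2 → ℝ}
    (h1 : KInv 𝒢 Φ e R k1) (h2 : KInv 𝒢 Φ e R k2) (t : ℝ) (ht : 0 ≤ t) (ht1 : t ≤ 1) :
    KInv 𝒢 Φ e R (fun z => (1 - t) * k1 z + t * k2 z) where
  meas := (h1.meas.const_mul _).add (h2.meas.const_mul _)
  nn := fun z => add_nonneg (mul_nonneg (by linarith) (h1.nn z)) (mul_nonneg ht (h2.nn z))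
  le1 := fun z => by
    have a1 := mul_le_mul_of_nonneg_left (h1.le1 z) (by linarith : 0 ≤ 1 - t)
    have a2 := mul_le_mul_of_nonneg_left (h2.le1 z) ht
    linarith
  inv := fun z hz u hu => by
    rw [h1.inv z hz u hu, h2.inv z hz u hu]

theorem KLV_zero {r0 : ℝ} (𝒢 : NChart 2 r0) (Φ : ℝ → PS 2 → PS 2) (e R : ℝ) :
    KInv 𝒢 Φ e R (fun _ => 0) where
  meas := measurable_const
  nn := fun _ => le_refl _
  le1 := fun _ => zero_le_one
  inv := fun _ _ _ _ => rfl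

theorem KLV (h1 : GFL_stmt) (h2 : KC2_stmt) (h3 : KFX_stmt) (h4 : KSH_stmt) (h5 : KFF_stmt)
    (h6 : KMB_stmt) (h7 : KF1_stmt) (h8 : VVP_stmt) (h9 : JVL_stmt) : KLV_stmt := by
  have _ := h8
  intro r0 𝒢 L R hex hln hR hRr hRL N M mx hN hM hMR hmx
  obtain ⟨_, hfmono, _, _, hf1, _, hfb⟩ := h7
  -- the standing assumptions
  have hL : 0 < L := by linarith
  obtain ⟨e, he⟩ : ∃ e, e = (2 * R / L + 1) / 2 := ⟨_, rfl⟩
  have hq : 2 * R / L < 1 := (div_lt_one hL).2 hRL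
  have hq0 : 0 < 2 * R / L := by positivity
  have he0 : 0 < e := by rw [he]; linarith
  have he1 : e < 1 := by rw [he]; linarith
  have heL : 2 * R < e * L := by
    have h10 : 2 * R / L < e := by rw [he]; linarith
    rw [div_lt_iff₀ hL] at h10
    exact h10
  obtain ⟨r1, hr1⟩ : ∃ r1, r1 = (R + r0) / 2 := ⟨_, rfl⟩
  have hRr1 : R < r1 := by rw [hr1]; linarith
  have hr10 : r1 < r0 := by rw [hr1]; linarith
  obtain ⟨H, Φ, hfl⟩ := h1 2 r0 r1 𝒢 (hR.trans hRr1) hr10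
  have hstd : Std 𝒢 L R e r1 H Φ :=
    ⟨le_refl _, hfl, hex, hln, hR, hRr1, he0, he1, heL⟩
  have hcont : Continuous fun q : ℝ × PS 2 => Φ q.1 q.2 := hfl.cont
  have hTT := KLV_TT Φ hcont R
  obtain ⟨c, hc⟩ : ∃ c, c = c3 e := ⟨_, rfl⟩
  have hcpos : 0 < c := by
    rw [hc]
    unfold c3
    have : e ^ 3 < 1 := pow_lt_one₀ he0.le he1 (by norm_num)
    linarith
  -- notation
  obtain ⟨h, hh⟩ : ∃ h, h = R / N := ⟨_, rfl⟩
  have hN' : (0 : ℝ) < N := by
    have : 0 < N := by omega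
    exact_mod_cast this
  have hhp : 0 < h := by rw [hh]; positivity
  have hNh : (N : ℝ) * h = R := by rw [hh]; field_simp
  have hkm := h6 r0 𝒢 L R e r1 H Φ hstd N hN
  rw [← hh] at hkm hMR
  obtain ⟨hkm1, hkm2⟩ := hkm
  obtain ⟨kj, hkj⟩ : ∃ kj : ℕ → PS 2 → ℝ, kj = fun j : ℕ =>
    (Hit Φ R ((j : ℝ) * h)).indicator (fun _ => (1 : ℝ)) := ⟨_, rfl⟩
  obtain ⟨m, hm⟩ : ∃ m : ℕ → ℝ≥0∞, m = fun j => mmk 𝒢 Φ e R (kj j) := ⟨_, rfl⟩
  have hk0 : kj 0 = fun _ => 0 := by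
    rw [hkj]
    simp only [Nat.cast_zero, zero_mul]
    funext z
    rw [indicator_of_notMem]
    rintro ⟨u, _, hu⟩
    exact absurd hu (not_lt.2 (norm_nonneg _))
  have hm0 : m 0 = 0 := by
    rw [hm]
    simp only [hk0]
    unfold mmk
    simp
  have hKI : ∀ j, j < N → KInv 𝒢 Φ e R (kj j) := by
    intro j hj
    rcases Nat.eq_zero_or_pos j with rfl | hj0
    · rw [hk0]
      exact KLV_zero 𝒢 Φ e R
    · rw [hkj]
      exact (hkm1 j hj0 hj).1
  have hmfin : ∀ j, j < N → m j ≠ ⊤ := by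
    intro j hj
    rcases Nat.eq_zero_or_pos j with rfl | hj0
    · rw [hm0]
      exact ENNReal.zero_ne_top
    · rw [hm, hkj]
      exact (hkm1 j hj0 hj).2
  have hlast : ENNReal.ofReal (c * M) ≤ m (N - 1) := by
    rw [hm, hkj]
    have h10 : ((N - 1 : ℕ) : ℝ) = (N : ℝ) - 1 := by
      rw [Nat.cast_sub (by omega)]
      simp
    simp only [h10]
    refine le_trans (ENNReal.ofReal_le_ofReal ?_) hkm2
    rw [← hc]
    exact mul_le_mul_of_nonneg_left hMR hcpos.le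
  -- the level
  obtain ⟨J, hJ1, hJN, hJlo, hJhi⟩ : ∃ J, 1 ≤ J ∧ J < N ∧ m (J - 1) < ENNReal.ofReal (c * M) ∧
      ENNReal.ofReal (c * M) ≤ m J := by
    classical
    have hex2 : ∃ j, ENNReal.ofReal (c * M) ≤ m j := ⟨_, hlast⟩
    have hcM : 0 < ENNReal.ofReal (c * M) := ENNReal.ofReal_pos.2 (mul_pos hcpos hM)
    have hne : Nat.find hex2 ≠ 0 := by
      intro h0
      have h11 := Nat.find_spec hex2
      rw [h0, hm0] at h11
      exact absurd h11 (not_le.2 hcM)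
    refine ⟨Nat.find hex2, by omega, ?_, ?_, Nat.find_spec hex2⟩
    · have := Nat.find_min' hex2 hlast
      omega
    · exact not_le.1 (Nat.find_min hex2 (by omega))
  have hJm : J - 1 < N := by omega
  obtain ⟨a, ha⟩ : ∃ a, a = (m (J - 1)).toReal := ⟨_, rfl⟩
  obtain ⟨b, hb⟩ : ∃ b, b = (m J).toReal := ⟨_, rfl⟩
  have ha' : m (J - 1) = ENNReal.ofReal a := by rw [ha, ENNReal.ofReal_toReal (hmfin _ hJm)]
  have hb' : m J = ENNReal.ofReal b := by rw [hb, ENNReal.ofReal_toReal (hmfin _ hJN)]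
  have ha0 : 0 ≤ a := by rw [ha]; exact ENNReal.toReal_nonneg
  have hb0 : 0 ≤ b := by rw [hb]; exact ENNReal.toReal_nonneg
  have hacM : a < c * M := by
    rw [ha'] at hJlo
    exact (ENNReal.ofReal_lt_ofReal_iff (mul_pos hcpos hM)).1 hJlo
  have hcMb : c * M ≤ b := by
    rw [hb'] at hJhi
    exact (ENNReal.ofReal_le_ofReal_iff hb0).1 hJhi
  have hab : 0 < b - a := by linarith
  obtain ⟨t, ht⟩ : ∃ t, t = (c * M - a) / (b - a) := ⟨_, rfl⟩
  have ht0 : 0 ≤ t := by rw [ht]; exact div_nonneg (by linarith) hab.le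
  have ht1 : t ≤ 1 := by rw [ht, div_le_one hab]; linarith
  have htab : (1 - t) * a + t * b = c * M := by
    rw [ht]
    field_simp
    ring
  obtain ⟨k, hk⟩ : ∃ k : PS 2 → ℝ, k = fun z => (1 - t) * kj (J - 1) z + t * kj J z := ⟨_, rfl⟩
  have hkI : KInv 𝒢 Φ e R k := by
    rw [hk]
    exact KLV_comb (hKI _ hJm) (hKI _ hJN) t ht0 ht1
  have hkm : mmk 𝒢 Φ e R k = ENNReal.ofReal (c * M) := by
    have e1 := KLV_mmk 𝒢 Φ e R hTT (kj (J - 1)) (kj J) (hKI _ hJm).meas (hKI _ hJN).meas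
      (hKI _ hJm).nn (hKI _ hJN).nn (1 - t) t (by linarith) ht0
    have e2 : mmk 𝒢 Φ e R (kj (J - 1)) = ENNReal.ofReal a := by rw [← ha', hm]
    have e3 : mmk 𝒢 Φ e R (kj J) = ENNReal.ofReal b := by rw [← hb', hm]
    rw [hk, e1, e2, e3, ← ENNReal.ofReal_mul (by linarith), ← ENNReal.ofReal_mul ht0,
      ← ENNReal.ofReal_add (mul_nonneg (by linarith) ha0) (mul_nonneg ht0 hb0), htab]
  have hJ1' : ((J - 1 : ℕ) : ℝ) = (J : ℝ) - 1 := by
    rw [Nat.cast_sub hJ1]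
    simp
  have hin : ∀ (z : PS 2) (i : ℕ), ‖z.1‖ < R → ‖z.1‖ < i * h → kj i z = 1 := by
    intro z i hz hz'
    rw [hkj]
    simp only
    rw [indicator_of_mem]
    refine ⟨0, ?_, ?_⟩
    · intro s hs
      rw [uIcc_self, mem_singleton_iff] at hs
      rw [hs, hfl.zero]
      exact hz
    · rw [hfl.zero]
      exact hz'
  have hout : ∀ z : PS 2, z ∉ Hit Φ R (J * h) → k z = 0 := by
    intro z hz
    have hz' : z ∉ Hit Φ R (((J - 1 : ℕ) : ℝ) * h) := by
      intro h10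
      refine hz (KLV_hit_mono ?_ h10)
      rw [hJ1']
      nlinarith
    rw [hk, hkj]
    simp only
    rw [indicator_of_notMem hz, indicator_of_notMem hz']
    ring
  -- the volumes of the shells
  obtain ⟨⟨c0, C0, hc0, _, hvv⟩, _⟩ := h9 2 r0 𝒢 R (le_refl _) hR hRr
  have hvpos : ∀ i ∈ Finset.Icc 1 N, 0 < vv 𝒢 R N i := by
    intro i hi
    have h10 := (hvv N i (by omega) hi).1
    rw [← hh] at h10
    refine lt_of_lt_of_le ?_ h10
    have hi1 : (0 : ℝ) < i := by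
      have : 0 < i := (Finset.mem_Icc.1 hi).1
      exact_mod_cast this
    positivity
  have hvdef : ∀ i : ℕ, vv 𝒢 R N i = VV 𝒢 (i * h) - VV 𝒢 (((i : ℝ) - 1) * h) := by
    intro i
    rw [hh]
    rfl
  obtain ⟨X, hX⟩ : ∃ X : ℕ → ℝ, X = fun i => min 1 (h * M / (2 * vv 𝒢 R N i)) := ⟨_, rfl⟩
  have hX01 : ∀ i ∈ Finset.Icc 1 N, X i ∈ Icc (0 : ℝ) 1 := by
    intro i hi
    rw [hX]
    have := hvpos i hi
    exact ⟨le_min zero_le_one (by positivity), min_le_left _ _⟩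
  have hbd : ∀ i ∈ Finset.Icc 1 N, 0 ≤ ((i : ℝ) - 1) * h ∧ ((i : ℝ) - 1) * h < i * h ∧
      (i : ℝ) * h ≤ R ∧ (i : ℝ) * h - ((i : ℝ) - 1) * h = h := by
    intro i hi
    obtain ⟨hi1, hiN⟩ := Finset.mem_Icc.1 hi
    have a1 : (1 : ℝ) ≤ i := by exact_mod_cast hi1
    have a2 : (i : ℝ) ≤ N := by exact_mod_cast hiN
    refine ⟨mul_nonneg (by linarith) hhp.le, by nlinarith, ?_, by ring⟩
    rw [← hNh]
    exact mul_le_mul_of_nonneg_right a2 hhp.le
  have hclaim : ∀ i ∈ (Finset.Icc 1 N).erase J,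
      ENNReal.ofReal (16 * c ^ 2 * vv 𝒢 R N i * fl (X i)) ≤
        ∫⁻ z in Shl 𝒢 e (((i : ℝ) - 1) * h) (i * h), QQ 𝒢 e k k z := by
    intro i hi
    have hiJ := Finset.ne_of_mem_erase hi
    have hi' := Finset.mem_of_mem_erase hi
    obtain ⟨b1, b2, b3, b4⟩ := hbd i hi'
    have hv := hvpos i hi'
    have hXi := hX01 i hi'
    rcases lt_or_gt_of_ne hiJ with hlt | hgt
    · -- inner shells
      have h10 := h4 r0 𝒢 e (((i : ℝ) - 1) * h) (i * h) he0 he1 b1 b2 (lt_of_le_of_lt b3 hRr) k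
        hkI.meas (fun z => ⟨hkI.nn z, hkI.le1 z⟩) 1 zero_le_one (le_refl _) ?_
      · refine le_trans (ENNReal.ofReal_le_ofReal ?_) h10
        rw [← hc, ← hvdef]
        refine mul_le_mul_of_nonneg_left ?_ (by positivity)
        exact hfmono hXi ⟨zero_le_one, le_refl _⟩ hXi.2
      · have h11 := KLV_full h5 𝒢 e (((i : ℝ) - 1) * h) (i * h) he0 he1 b1 b2.le
          (lt_of_le_of_lt b3 hRr) (by rw [← hc]; exact hcpos.le)
        rw [mul_one]
        refine h11.trans (le_of_eq ?_)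
        refine setLIntegral_congr_fun (KLV_Shl 𝒢 e _ _ (lt_of_le_of_lt b3 hRr)) ?_
        intro z hz
        have hzR : ‖z.1‖ < R := lt_of_lt_of_le hz.1.2 b3
        have hzi : ‖z.1‖ < ((J - 1 : ℕ) : ℝ) * h := by
          refine lt_of_lt_of_le hz.1.2 (mul_le_mul_of_nonneg_right ?_ hhp.le)
          exact_mod_cast (by omega : i ≤ J - 1)
        have hzJ : ‖z.1‖ < (J : ℝ) * h := by
          refine lt_of_lt_of_le hz.1.2 (mul_le_mul_of_nonneg_right ?_ hhp.le)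
          exact_mod_cast hlt.le
        have hkz : k z = 1 := by
          rw [hk]
          simp only
          rw [hin z (J - 1) hzR hzi, hin z J hzR hzJ]
          ring
        simp only
        rw [hkz, one_mul]
    · -- outer shells
      have hJh : 0 < (J : ℝ) * h := by
        have : (0 : ℝ) < J := by exact_mod_cast hJ1
        positivity
      have hJi : (J : ℝ) * h ≤ ((i : ℝ) - 1) * h := by
        refine mul_le_mul_of_nonneg_right ?_ hhp.le
        have : (J : ℝ) + 1 ≤ i := by exact_mod_cast hgt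
        linarith
      have h10 := h4 r0 𝒢 e (((i : ℝ) - 1) * h) (i * h) he0 he1 b1 b2 (lt_of_le_of_lt b3 hRr) k
        hkI.meas (fun z => ⟨hkI.nn z, hkI.le1 z⟩) (X i) hXi.1 hXi.2 ?_
      · refine le_trans (le_of_eq ?_) h10
        rw [← hc, ← hvdef]
      · have h11 := h3 r0 𝒢 L R e r1 H Φ hstd k hkI (J * h) (((i : ℝ) - 1) * h) (i * h) hJh hJi
          b2 b3 (fun z _ hz => hout z hz)
        refine le_trans ?_ h11
        rw [hkm, b4, ← ENNReal.ofReal_mul hhp.le, ← hc, ← hvdef]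
        have h12 : (2 : ℝ≥0∞) = ENNReal.ofReal 2 := by simp
        rw [h12, ← ENNReal.ofReal_mul (by norm_num)]
        refine ENNReal.ofReal_le_ofReal ?_
        have h13 : X i ≤ h * M / (2 * vv 𝒢 R N i) := by
          rw [hX]
          exact min_le_right _ _
        calc 4 * c * vv 𝒢 R N i * X i ≤ 4 * c * vv 𝒢 R N i * (h * M / (2 * vv 𝒢 R N i)) :=
              mul_le_mul_of_nonneg_left h13 (by positivity)
          _ = 2 * (h * (c * M)) := by
              field_simp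
              ring
  -- the sum
  have hsum : ∑ i ∈ (Finset.Icc 1 N).erase J,
      ENNReal.ofReal (16 * c ^ 2 * vv 𝒢 R N i * fl (X i)) ≤ ENNReal.ofReal ((c * M) ^ 2) := by
    calc ∑ i ∈ (Finset.Icc 1 N).erase J,
          ENNReal.ofReal (16 * c ^ 2 * vv 𝒢 R N i * fl (X i))
        ≤ ∑ i ∈ (Finset.Icc 1 N).erase J,
          ∫⁻ z in Shl 𝒢 e (((i : ℝ) - 1) * h) (i * h), QQ 𝒢 e k k z := Finset.sum_le_sum hclaim
      _ = ∫⁻ z in ⋃ i ∈ (Finset.Icc 1 N).erase J, Shl 𝒢 e (((i : ℝ) - 1) * h) (i * h),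
          QQ 𝒢 e k k z := by
          rw [lintegral_biUnion_finset]
          · intro i hi i' hi' hne
            simp only [Function.onFun]
            rw [Set.disjoint_left]
            intro z hz hz'
            have key : ∀ i i' : ℕ, i < i' → z ∈ Shl 𝒢 e (((i : ℝ) - 1) * h) (i * h) →
                z ∈ Shl 𝒢 e (((i' : ℝ) - 1) * h) (i' * h) → False := by
              intro i i' hlt h10 h11
              have h12 : (i : ℝ) * h ≤ ((i' : ℝ) - 1) * h := by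
                refine mul_le_mul_of_nonneg_right ?_ hhp.le
                have : (i : ℝ) + 1 ≤ i' := by exact_mod_cast hlt
                linarith
              have h13 := h10.1.2
              have h14 := h11.1.1
              linarith
            rcases lt_or_gt_of_ne hne with hlt | hlt
            · exact key i i' hlt hz hz'
            · exact key i' i hlt hz' hz
          · intro i hi
            exact KLV_Shl 𝒢 e _ _
              (lt_of_le_of_lt (hbd i (Finset.mem_of_mem_erase hi)).2.2.1 hRr)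
      _ ≤ ∫⁻ z in SL 𝒢 e R, QQ 𝒢 e k k z := by
          refine lintegral_mono_set ?_
          refine iUnion₂_subset fun i hi => ?_
          intro z hz
          exact ⟨lt_of_lt_of_le hz.1.2 (hbd i (Finset.mem_of_mem_erase hi)).2.2.1, hz.2⟩
      _ ≤ mmk 𝒢 Φ e R k * mmk 𝒢 Φ e R k := h2 r0 𝒢 L R e r1 H Φ hstd k k hkI hkI
      _ = ENNReal.ofReal ((c * M) ^ 2) := by
          rw [hkm, ← ENNReal.ofReal_mul (mul_pos hcpos hM).le, sq]
  have hnn : ∀ i ∈ (Finset.Icc 1 N).erase J, 0 ≤ 16 * c ^ 2 * vv 𝒢 R N i * fl (X i) := by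
    intro i hi
    have hi' := Finset.mem_of_mem_erase hi
    have a1 := hvpos i hi'
    have a2 := (hfb (X i) (hX01 i hi')).1
    positivity
  rw [← ENNReal.ofReal_sum_of_nonneg hnn, ENNReal.ofReal_le_ofReal_iff (sq_nonneg _)] at hsum
  have hsum2 : 16 * ∑ i ∈ (Finset.Icc 1 N).erase J, vv 𝒢 R N i * fl (X i) ≤ M ^ 2 := by
    have e1 : ∑ i ∈ (Finset.Icc 1 N).erase J, 16 * c ^ 2 * vv 𝒢 R N i * fl (X i) =
        c ^ 2 * (16 * ∑ i ∈ (Finset.Icc 1 N).erase J, vv 𝒢 R N i * fl (X i)) := by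
      rw [Finset.mul_sum, Finset.mul_sum]
      refine Finset.sum_congr rfl fun i _ => ?_
      ring
    rw [e1, mul_pow] at hsum
    exact le_of_mul_le_mul_left hsum (by positivity)
  -- the missing term
  have hJmem : J ∈ Finset.Icc 1 N := Finset.mem_Icc.2 ⟨hJ1, hJN.le⟩
  have hJterm : vv 𝒢 R N J * fl (X J) ≤ mx * (Real.pi / 2) := by
    have a1 := hfb (X J) (hX01 J hJmem)
    have a2 : fl (X J) ≤ Real.pi / 2 := by
      rw [← hf1]
      exact hfmono (hX01 J hJmem) ⟨zero_le_one, le_refl _⟩ (hX01 J hJmem).2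
    exact mul_le_mul (hmx J hJmem) a2 a1.1 ((hvpos J hJmem).le.trans (hmx J hJmem))
  have hfin : ∑ i ∈ Finset.Icc 1 N, vv 𝒢 R N i * fl (X i) =
      vv 𝒢 R N J * fl (X J) + ∑ i ∈ (Finset.Icc 1 N).erase J, vv 𝒢 R N i * fl (X i) :=
    (Finset.add_sum_erase _ _ hJmem).symm
  have hgoal : ∑ j ∈ Finset.Icc 1 N, vv 𝒢 R N j * fl (min 1 (R / N * M / (2 * vv 𝒢 R N j))) =
      ∑ i ∈ Finset.Icc 1 N, vv 𝒢 R N i * fl (X i) := by
    rw [hX, hh]
  rw [hgoal, hfin]
  linarith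

end Pool.Agent.CRO
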